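import Pool.Agent.Helper35.PI2.St

set_option autoImplicit false

namespace Helper39.PI2

open Helper35.PI Helper35.PI2
open scoped ContDiff Manifold Topology ENNReal BigOperators
open MeasureTheory Set Filter

theorem hEG (hET : StET) (hLS : StLS) (hCI : StCI) (hEB : StEB) : StEG := by
  intro n N M _ _ _ _ F hF hRP hcomp c χ hPU R C₁ δ a hR hC₁ hδ ha hLam hth hX s₁ s₂ h12 h2
  obtain ⟨_, hcth, hcps, _⟩ := hEB n N M F hF R hR
  have hconv : ∀ s₁ s₂ : ℝ, (∫⁻ r in Icc s₁ s₂, ENNReal.ofReal δ * Lam (n := n) F c χ r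
      (fun q => ENNReal.ofReal (psR R F q r ^ 4 * (‖HH (n := n) F q r‖ ^ 2 * thF n F q r)))) =
      ENNReal.ofReal δ * ∫⁻ r in Icc s₁ s₂, Lam (n := n) F c χ r
      (fun q => ENNReal.ofReal (psR R F q r ^ 4 * (‖HH (n := n) F q r‖ ^ 2 * thF n F q r))) :=
    fun s₁ s₂ => lintegral_const_mul' _ _ ENNReal.ofReal_ne_top
  have key := hCI
    (fun t => Lam (n := n) F c χ t (fun q => ENNReal.ofReal (psR R F q t ^ 4 * thF n F q t)))
    (fun t => ENNReal.ofReal δ * Lam (n := n) F c χ t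
      (fun q => ENNReal.ofReal (psR R F q t ^ 4 * (‖HH (n := n) F q t‖ ^ 2 * thF n F q t))))
    (C₁ * a) (mul_nonneg hC₁ ha) ?_ ?_ s₁ s₂ h12 h2
  · rw [hconv] at key
    exact key
  · intro t₀ ht₀
    obtain ⟨η, hη, H⟩ := hET n N M F hF hRP hcomp c χ hPU R C₁ δ a hR hC₁ hδ ha hLam hth hX t₀ ht₀
    refine ⟨η, hη, fun u₁ u₂ h1 h3 h4 h5 => ?_⟩
    rw [hconv]
    exact H u₁ u₂ h1 h3 h4 h5
  · intro t ht u hu hut
    exact hLS n N M F hF c χ hPU (fun q t => psR R F q t ^ 4 * thF n F q t)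
      ((hcps.pow 4).mul hcth) t ht u hu (fun k => (hut k).trans ht)

end Helper39.PI2
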